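import Pool.Agent.H121.UE.Iface

/-! UE-ROWB: row sums of the weights of a chain. -/

set_option autoImplicit false

open scoped BigOperators Topology ENNReal
open Filter MeasureTheory
open Pool.Agent.H121.UE

namespace Pool.Agent.H79.UE

open Classical in
/-- partial sums of the weights of the path -/
theorem partial_sum {ι : Type} (P : ι → ι → ℝ≥0∞) (p : ℕ → ι) (n : ℕ) (η : ℝ≥0∞)
    (h1 : ∀ i ≤ n, ∑' u, P (p i) u ≤ 1 + η) :
    ∀ m ≤ n, (∑' v, ∑ i ∈ Finset.range m, pk P p i * (if v = p (i + 1) then 0 else P (p i) v))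
      + pk P p m ≤ 1 + η * ∑ i ∈ Finset.range m, pk P p i := by
  intro m
  induction m with
  | zero =>
    intro _
    simp [pk]
  | succ m ih =>
    intro hm
    have ih' := ih (by omega)
    have hs : ∀ v, ∑ i ∈ Finset.range (m + 1), pk P p i * (if v = p (i + 1) then 0 else P (p i) v)
        = (∑ i ∈ Finset.range m, pk P p i * (if v = p (i + 1) then 0 else P (p i) v))
          + pk P p m * (if v = p (m + 1) then 0 else P (p m) v) := by
      intro v
      rw [Finset.sum_range_succ]
    have h2 : (∑' v, ∑ i ∈ Finset.range (m + 1),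
        pk P p i * (if v = p (i + 1) then 0 else P (p i) v))
        = (∑' v, ∑ i ∈ Finset.range m, pk P p i * (if v = p (i + 1) then 0 else P (p i) v))
          + pk P p m * ∑' v, (if v = p (m + 1) then 0 else P (p m) v) := by
      rw [← ENNReal.tsum_mul_left, ← ENNReal.tsum_add]
      exact tsum_congr hs
    have h3 : pk P p (m + 1) = pk P p m * P (p m) (p (m + 1)) := by
      unfold pk
      rw [Finset.prod_range_succ]
    have h4 : ∑' v, P (p m) v = P (p m) (p (m + 1)) +
        ∑' v, (if v = p (m + 1) then 0 else P (p m) v) :=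
      ENNReal.tsum_eq_add_tsum_ite (p (m + 1))
    have h5 := h1 m (by omega)
    rw [h2, h3, Finset.sum_range_succ]
    calc (∑' v, ∑ i ∈ Finset.range m, pk P p i * (if v = p (i + 1) then 0 else P (p i) v))
          + pk P p m * (∑' v, (if v = p (m + 1) then 0 else P (p m) v))
          + pk P p m * P (p m) (p (m + 1))
        = (∑' v, ∑ i ∈ Finset.range m, pk P p i * (if v = p (i + 1) then 0 else P (p i) v))
          + pk P p m * ∑' v, P (p m) v := by
          rw [h4]; ring
      _ ≤ (∑' v, ∑ i ∈ Finset.range m, pk P p i * (if v = p (i + 1) then 0 else P (p i) v))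
          + pk P p m * (1 + η) := by gcongr
      _ = ((∑' v, ∑ i ∈ Finset.range m, pk P p i * (if v = p (i + 1) then 0 else P (p i) v))
          + pk P p m) + η * pk P p m := by ring
      _ ≤ (1 + η * ∑ i ∈ Finset.range m, pk P p i) + η * pk P p m := by gcongr
      _ = 1 + η * (∑ i ∈ Finset.range m, pk P p i + pk P p m) := by ring

theorem pk_le {ι : Type} (P : ι → ι → ℝ≥0∞) (p : ℕ → ι) (n : ℕ) (η : ℝ≥0∞) (hη : η ≤ 1)
    (h1 : ∀ i ≤ n, ∑' u, P (p i) u ≤ 1 + η) : ∀ m ≤ n, pk P p m ≤ 2 ^ m := by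
  intro m hm
  unfold pk
  have h2 : ∀ j ∈ Finset.range m, P (p j) (p (j + 1)) ≤ 2 := by
    intro j hj
    rw [Finset.mem_range] at hj
    calc P (p j) (p (j + 1)) ≤ ∑' u, P (p j) u := ENNReal.le_tsum _
      _ ≤ 1 + η := h1 j (by omega)
      _ ≤ 1 + 1 := by gcongr
      _ = 2 := by norm_num
  calc ∏ j ∈ Finset.range m, P (p j) (p (j + 1)) ≤ ∏ _j ∈ Finset.range m, (2 : ℝ≥0∞) :=
        Finset.prod_le_prod' h2
    _ = 2 ^ m := by simp

open Classical in
theorem rowb : S_rowb := by
  intro ι P κ p n η a hκ hη h1 ha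
  have hps := partial_sum P p n η h1 n le_rfl
  have hW : ∑' v, Wb P κ p n v
      = (∑' v, ∑ i ∈ Finset.range n, pk P p i * (if v = p (i + 1) then 0 else P (p i) v))
        + pk P p n * κ * ∑' v, P (p n) v := by
    rw [← ENNReal.tsum_mul_left, ← ENNReal.tsum_add]
    rfl
  have han : a ^ n ≤ pk P p n := by
    unfold pk
    calc a ^ n = ∏ _j ∈ Finset.range n, a := by simp
      _ ≤ ∏ j ∈ Finset.range n, P (p j) (p (j + 1)) := by
        apply Finset.prod_le_prod'
        intro j hj
        exact ha j (Finset.mem_range.mp hj)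
  have hsum : ∑ i ∈ Finset.range (n + 1), pk P p i ≤ 2 ^ (n + 1) := by
    have h2 : ∑ i ∈ Finset.range (n + 1), pk P p i ≤ ∑ i ∈ Finset.range (n + 1), (2 : ℝ≥0∞) ^ i := by
      apply Finset.sum_le_sum
      intro i hi
      exact pk_le P p n η hη h1 i (by rw [Finset.mem_range] at hi; omega)
    refine h2.trans ?_
    have h3 : ∀ k : ℕ, ∑ i ∈ Finset.range k, (2 : ℝ≥0∞) ^ i ≤ 2 ^ k := by
      intro k
      induction k with
      | zero => simp
      | succ k ih =>
        rw [Finset.sum_range_succ, pow_succ]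
        calc ∑ i ∈ Finset.range k, (2 : ℝ≥0∞) ^ i + 2 ^ k ≤ 2 ^ k + 2 ^ k := by gcongr
          _ = 2 ^ k * 2 := by ring
    exact h3 (n + 1)
  have hκ1 : κ + (1 - κ) = 1 := add_tsub_cancel_of_le hκ
  rw [hW]
  calc (∑' v, ∑ i ∈ Finset.range n, pk P p i * (if v = p (i + 1) then 0 else P (p i) v))
        + pk P p n * κ * (∑' v, P (p n) v) + a ^ n * (1 - κ)
      ≤ (∑' v, ∑ i ∈ Finset.range n, pk P p i * (if v = p (i + 1) then 0 else P (p i) v))
        + pk P p n * κ * (1 + η) + pk P p n * (1 - κ) := by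
        gcongr
        exact h1 n le_rfl
    _ = ((∑' v, ∑ i ∈ Finset.range n, pk P p i * (if v = p (i + 1) then 0 else P (p i) v))
        + pk P p n * (κ + (1 - κ))) + η * (pk P p n * κ) := by ring
    _ = ((∑' v, ∑ i ∈ Finset.range n, pk P p i * (if v = p (i + 1) then 0 else P (p i) v))
        + pk P p n) + η * (pk P p n * κ) := by rw [hκ1, mul_one]
    _ ≤ (1 + η * ∑ i ∈ Finset.range n, pk P p i) + η * (pk P p n * 1) := by
        gcongr
    _ = 1 + (∑ i ∈ Finset.range (n + 1), pk P p i) * η := by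
        rw [Finset.sum_range_succ]; ring
    _ ≤ 1 + 2 ^ (n + 1) * η := by gcongr

end Pool.Agent.H79.UE
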